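import Pool.Agent.N35.HL.KSets

/-!
# The maximum number of `k`-sets: more than `C * n * k ^ (d - 2 + 1 / (log log k) ^ 4)`

`IsKSet` and `a` are defined in `Pool/Agent/H501R3/KSet.lean` (namespace `H501.KSet`):

* `IsKSet P k S`: `S ⊆ P`, `|S| = k` and `S = P ∩ {p | ∑ i, v i * p i < c}` for some `v ≠ 0`
  and `c`,
* `a d n k`: the maximum number of `k`-sets of a set of `n` points in `ℝ ^ d`.
-/

namespace Pool.Agent.Results.MP_77a832_co.LogLogPower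

open H501.KSet

/-- For every `d ≥ 2` and every constant `C`, for all large `k` and all `n ≥ 2 k`,
`a_d(n, k) ≥ C * n * k ^ (d - 2 + 1 / (log log k) ^ 4)`, and the same lower bound holds for
`a_d(n, n - k)`. -/
theorem result : ∀ d : ℕ, 2 ≤ d → ∀ C : ℝ, ∃ k₀ : ℕ, ∀ k n : ℕ, k₀ ≤ k → 2 * k ≤ n →
    C * n * (k : ℝ) ^ ((d : ℝ) - 2 + 1 / (Real.log (Real.log k)) ^ 4) ≤ (a d n k : ℝ) ∧
    C * n * (k : ℝ) ^ ((d : ℝ) - 2 + 1 / (Real.log (Real.log k)) ^ 4) ≤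
      (a d n (n - k) : ℝ) := by
  intro d hd C
  obtain ⟨k₀, h⟩ := Pool.Agent.N35.HL.ksets d hd C
  refine ⟨k₀, fun k n hk hn => ⟨h k n hk hn, (h k n hk hn).trans ?_⟩⟩
  exact_mod_cast a_compl_le d n k

end Pool.Agent.Results.MP_77a832_co.LogLogPower
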