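import Pool.Agent.N378.KH.Sets
import Pool.Agent.N378.KH.Meas
import Pool.Agent.N378.KH.Dis2
import Pool.Agent.N374.KHCOV
import Pool.Agent.N513.KHMEAS
import Pool.Agent.N42.KHMV
import Pool.Agent.N186.KHPIM
import Pool.Agent.N383.KHLIN
import Pool.Agent.N2.KHRANK
import Pool.Agent.N43.KHDIST
import Pool.Agent.N555.KHCUR
import Pool.Agent.N931.KHVOL
import Pool.Agent.N68.KHGP
import Pool.Agent.N727.KHCMAP
import Pool.Agent.N170.KHLAW
import Pool.Agent.N55.KHKS
import Pool.Agent.N349.KHUNI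

set_option autoImplicit false

/-!
# The smoothed number of k-sets in every dimension (MP_77a832_co)

`n` independent random points in the cube `[-1, 1]^d`, not necessarily identically distributed, with
laws of bounded density.  For every `1 ≤ k ≤ n - 1` the expected number of the `k`-sets is
`O(n^(d-1))`, with explicit constants:

* `2^(d+2) (2^(d+1) D n)^(d-1)` if the laws are arbitrary laws of density at most `D` on the cube;
* `2^(d+2) (4 D n)^(d-1)` if moreover the coordinates are independent, with densities at most `D` on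
  the interval `[-1, 1]`;
* `2^(d+2) (2 n / s)^(d-1)` if arbitrary `n` points are perturbed by independent uniform noise from
  the cube `[-s, s]^d` (and the perturbed points remain in the unit cube).

Proof.  In general position a half-space which cuts off a `k`-set can be moved until exactly `d` of
the points are on its boundary and the other points are on the same sides as before; so a `k`-set is
determined by a `(k-t)`-hyperplane, one of its sides and `t` of its `d` points.  The number of the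
`(k-t)`-hyperplanes is bounded in the first part of the project (`Pool.Agent.N378.KH`).
-/

namespace Pool.Agent.Results.MP_77a832_co.SmoothedKSets

open MeasureTheory Finset
open scoped ENNReal

/-- General position: no `d + 1` of the points `x i` of `ℝ^d` lie on a common hyperplane. -/
def GeneralPosition {n d : ℕ} (x : Fin n → Fin d → ℝ) : Prop :=
  ∀ T : Finset (Fin n), T.card = d + 1 → ¬ ∃ (u : Fin d → ℝ) (c : ℝ), u ≠ 0 ∧
    ∀ i ∈ T, ∑ j, u j * x i j = c

/-- `S` is a `k`-set of the points `x i`: it has `k` elements, and the points `x i`, `i ∈ S`, are the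
points which lie in some open half-space. -/
def IsKSet {n d : ℕ} (x : Fin n → Fin d → ℝ) (k : ℕ) (S : Finset (Fin n)) : Prop :=
  S.card = k ∧ ∃ (u : Fin d → ℝ) (c : ℝ), u ≠ 0 ∧ ∀ i, i ∈ S ↔ ∑ j, u j * x i j < c

/-- The number of the `k`-sets. -/
noncomputable def numKSets {n d : ℕ} (k : ℕ) (x : Fin n → Fin d → ℝ) : ℕ :=
  Nat.card {S : Finset (Fin n) // IsKSet x k S}

/-- The uniform distribution on the interval `[q - s, q + s]`. -/
noncomputable def unif (s q : ℝ) : Measure ℝ :=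
  (ENNReal.ofReal (2 * s))⁻¹ • volume.restrict (Set.Icc (q - s) (q + s))

lemma unif_prob {s : ℝ} (hs : 0 < s) (q : ℝ) : IsProbabilityMeasure (unif s q) := by
  constructor
  rw [unif, Measure.smul_apply, Measure.restrict_apply_univ, Real.volume_Icc, smul_eq_mul,
    show q + s - (q - s) = 2 * s by ring]
  exact ENNReal.inv_mul_cancel (by simpa using hs) ENNReal.ofReal_ne_top

lemma unif_le {s q : ℝ} (hs : 0 < s) (hq : |q| + s ≤ 1) :
    unif s q ≤ ENNReal.ofReal (1 / (2 * s)) • volume.restrict (Set.Icc (-1 : ℝ) 1) := by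
  have h := abs_le.1 (show |q| ≤ 1 - s by linarith)
  rw [unif, one_div, ENNReal.ofReal_inv_of_pos (by linarith)]
  refine Measure.le_iff'.2 fun A => ?_
  rw [Measure.smul_apply, Measure.smul_apply]
  refine mul_le_mul' le_rfl ?_
  exact Measure.restrict_mono (Set.Icc_subset_Icc (by linarith) (by linarith)) le_rfl A

lemma isKSet_iff {n m k : ℕ} (hk1 : 1 ≤ k) (hk2 : k < n) (x : Fin n → Fin (m + 1) → ℝ)
    (S : Finset (Fin n)) : IsKSet x k S ↔ S.card = k ∧ N378.KH.Sep x S := by
  constructor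
  · rintro ⟨h, u, c, -, hS⟩
    refine ⟨h, u, c, ?_⟩
    ext i
    rw [hS i, Finset.mem_filter]
    simp
  · rintro ⟨h, u, c, hS⟩
    have hS' : ∀ i, i ∈ S ↔ ∑ j, u j * x i j < c := by
      intro i
      rw [hS, Finset.mem_filter]
      simp
    refine ⟨h, u, c, ?_, hS'⟩
    rintro rfl
    obtain ⟨i₀, hi₀⟩ : S.Nonempty := by
      rw [← Finset.card_pos]
      omega
    obtain ⟨i₁, hi₁⟩ : Sᶜ.Nonempty := by
      rw [← Finset.card_pos, Finset.card_compl, Fintype.card_fin]
      omega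
    have h3 := (hS' i₀).1 hi₀
    have h4 := fun h => (Finset.mem_compl.1 hi₁) ((hS' i₁).2 h)
    simp only [Pi.zero_apply, zero_mul, Finset.sum_const_zero] at h3 h4
    exact h4 h3

lemma numKSets_eq {n m k : ℕ} (hk1 : 1 ≤ k) (hk2 : k < n) (x : Fin n → Fin (m + 1) → ℝ) :
    numKSets k x = Nat.card {S : Finset (Fin n) // S.card = k ∧ N378.KH.Sep x S} :=
  Nat.card_congr (Equiv.subtypeEquivRight fun S => isKSet_iff hk1 hk2 x S)

/-- the general form of the assembly -/
lemma bound {n m k : ℕ} (hk1 : 1 ≤ k) (hk2 : k < n) (P : Measure (Fin n → Fin (m + 1) → ℝ))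
    [IsProbabilityMeasure P] (hg : ∀ᵐ x ∂P, N378.KH.GenPos x) (C : ℝ) (hC : 1 ≤ C)
    (h : ∀ k, ∃ G : (Fin n → Fin (m + 1) → ℝ) → ℝ≥0∞, Measurable G ∧
      (∀ᵐ x ∂P, (Nat.card {T : Finset (Fin n) // N378.KH.IsKH (N378.KH.fl x) k T} : ℝ≥0∞) ≤ G x) ∧
      ∫⁻ x, G x ∂P ≤ ENNReal.ofReal (2 * C ^ m)) :
    ∫⁻ x, (numKSets k x : ℝ≥0∞) ∂P ≤ ENNReal.ofReal (2 ^ (m + 3) * C ^ m) := by
  have hCm : 1 ≤ C ^ m := one_le_pow₀ hC
  rcases le_or_gt (m + 2) n with hn | hn
  · have h1 := N378.KH.ksets N55.KH.t_KS N349.KH.t_UNI P hg (2 * C ^ m) h hn k hk1 hk2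
    simp only [numKSets_eq hk1 hk2]
    refine le_trans h1 (le_of_eq ?_)
    congr 1
    ring
  · calc ∫⁻ x, (numKSets k x : ℝ≥0∞) ∂P ≤ ∫⁻ _, ((2 ^ n : ℕ) : ℝ≥0∞) ∂P := by
          refine lintegral_mono fun x => ?_
          have h2 : numKSets k x ≤ 2 ^ n := by
            classical
            unfold numKSets
            rw [Nat.card_eq_fintype_card]
            refine le_trans (Fintype.card_subtype_le _) ?_
            rw [Fintype.card_finset, Fintype.card_fin]
          exact Nat.cast_le.2 h2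
      _ = ENNReal.ofReal (2 ^ n) := by
          rw [lintegral_const, measure_univ, mul_one, ENNReal.ofReal_pow (by norm_num),
            ENNReal.ofReal_ofNat]
          push_cast
          rfl
      _ ≤ _ := by
          apply ENNReal.ofReal_le_ofReal
          calc (2 : ℝ) ^ n ≤ 2 ^ (m + 3) := pow_le_pow_right₀ (by norm_num) (by omega)
            _ = 2 ^ (m + 3) * 1 := by ring
            _ ≤ 2 ^ (m + 3) * C ^ m := by gcongr

lemma one_le_dens {m : ℕ} {D : ℝ} {μ : Measure (Fin (m + 1) → ℝ)} [IsProbabilityMeasure μ]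
    (h : μ ≤ ENNReal.ofReal D • volume.restrict (Set.Icc (-1 : Fin (m + 1) → ℝ) 1)) :
    1 ≤ D * 2 ^ (m + 1) := by
  have h1 := h Set.univ
  rw [measure_univ, Measure.smul_apply, Measure.restrict_apply_univ, Real.volume_Icc_pi,
    smul_eq_mul] at h1
  simp only [Pi.one_apply, Pi.neg_apply, Finset.prod_const, Finset.card_univ,
    Fintype.card_fin] at h1
  rw [← ENNReal.ofReal_pow (by norm_num), ← ENNReal.ofReal_mul' (by positivity),
    ← ENNReal.ofReal_one] at h1
  have h2 : (1 : ℝ) ≤ D * (1 - -1) ^ (m + 1) := by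
    rcases ENNReal.ofReal_le_ofReal_iff'.1 h1 with h | h
    · exact h
    · exact absurd h (by norm_num)
  norm_num at h2
  exact h2

lemma one_le_dens1 {D : ℝ} {μ : Measure ℝ} [IsProbabilityMeasure μ]
    (h : μ ≤ ENNReal.ofReal D • volume.restrict (Set.Icc (-1 : ℝ) 1)) : 1 ≤ D * 2 := by
  have h1 := h Set.univ
  rw [measure_univ, Measure.smul_apply, Measure.restrict_apply_univ, Real.volume_Icc,
    smul_eq_mul, ← ENNReal.ofReal_mul' (by norm_num), ← ENNReal.ofReal_one] at h1
  rcases ENNReal.ofReal_le_ofReal_iff'.1 h1 with h | h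
  · linarith
  · exact absurd h (by norm_num)

theorem result (d n k : ℕ) (hd : 1 ≤ d) (hk1 : 1 ≤ k) (hk2 : k < n) :
    (Measurable fun x : Fin n → Fin d → ℝ => numKSets k x) ∧
    -- arbitrary laws of density at most `D` on the cube
    (∀ (D : ℝ) (μ : Fin n → Measure (Fin d → ℝ)), 0 < D → (∀ i, IsProbabilityMeasure (μ i)) →
      (∀ i, μ i ≤ ENNReal.ofReal D • volume.restrict (Set.Icc (-1 : Fin d → ℝ) 1)) →
      (∀ᵐ x ∂Measure.pi μ, Function.Injective x ∧ GeneralPosition x) ∧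
      ∫⁻ x, (numKSets k x : ℝ≥0∞) ∂Measure.pi μ ≤
        ENNReal.ofReal (2 ^ (d + 2) * (2 ^ (d + 1) * D * n) ^ (d - 1))) ∧
    -- independent coordinates with densities at most `D` on `[-1, 1]`
    (∀ (D : ℝ) (ν : Fin n → Fin d → Measure ℝ), 0 < D → (∀ i j, IsProbabilityMeasure (ν i j)) →
      (∀ i j, ν i j ≤ ENNReal.ofReal D • volume.restrict (Set.Icc (-1 : ℝ) 1)) →
      (∀ᵐ x ∂(Measure.pi fun i => Measure.pi (ν i)), Function.Injective x ∧ GeneralPosition x) ∧
      ∫⁻ x, (numKSets k x : ℝ≥0∞) ∂(Measure.pi fun i => Measure.pi (ν i)) ≤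
        ENNReal.ofReal (2 ^ (d + 2) * (4 * D * n) ^ (d - 1))) ∧
    -- arbitrary points with uniform noise
    ∀ (s : ℝ) (q : Fin n → Fin d → ℝ), 0 < s → (∀ i j, |q i j| + s ≤ 1) →
      (∀ᵐ x ∂(Measure.pi fun i => Measure.pi fun j => unif s (q i j)),
        Function.Injective x ∧ GeneralPosition x) ∧
      ∫⁻ x, (numKSets k x : ℝ≥0∞) ∂(Measure.pi fun i => Measure.pi fun j =>
        unif s (q i j)) ≤ ENNReal.ofReal (2 ^ (d + 2) * (2 * n / s) ^ (d - 1)) := by
  obtain ⟨m, rfl⟩ : ∃ m, d = m + 1 := ⟨d - 1, by omega⟩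
  have hn1 : (1 : ℝ) ≤ n := by
    have : 1 ≤ n := by omega
    exact_mod_cast this
  have i₀ : Fin n := ⟨0, by omega⟩
  have hinj : ∀ (D : ℝ) (μ : Fin n → Measure (Fin (m + 1) → ℝ)), 0 < D → N378.KH.Law2 D μ →
      ∀ᵐ x ∂Measure.pi μ, Function.Injective x ∧ N378.KH.GenPos x := by
    intro D μ hD hL
    filter_upwards [N378.KH.t_DIS2 n m D μ hD hL, N68.KH.t_GP n m D μ hD hL] with x hx1 hx2
    refine ⟨fun i i' h => ?_, hx2⟩
    by_contra hne
    obtain ⟨e, he⟩ := hx1.2 i i' hne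
    exact he (by rw [h])
  have hA : ∀ (D : ℝ) (ν : Fin n → Fin (m + 1) → Measure ℝ), 0 < D →
      (∀ i j, IsProbabilityMeasure (ν i j)) →
      (∀ i j, ν i j ≤ ENNReal.ofReal D • volume.restrict (Set.Icc (-1 : ℝ) 1)) →
      (∀ᵐ x ∂(Measure.pi fun i => Measure.pi (ν i)), Function.Injective x ∧ GeneralPosition x) ∧
      ∫⁻ x, (numKSets k x : ℝ≥0∞) ∂(Measure.pi fun i => Measure.pi (ν i)) ≤
        ENNReal.ofReal (2 ^ (m + 1 + 2) * (4 * D * n) ^ (m + 1 - 1)) := by
    intro D ν hD hp hν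
    have hL : N378.KH.Law D (fun e : Fin n × Fin (m + 1) => ν e.1 e.2) :=
      ⟨fun e => hp e.1 e.2, fun e => hν e.1 e.2⟩
    have hg := hinj (D ^ (m + 1)) (fun i => Measure.pi (ν i)) (by positivity)
      (N170.KH.t_LAW n m D ν hD hL)
    refine ⟨hg, ?_⟩
    have hC : 1 ≤ 4 * D * n := by
      have h1 := one_le_dens1 (hν i₀ 0)
      nlinarith
    exact bound hk1 hk2 _ (hg.mono fun x hx => hx.2) (4 * D * n) hC
      fun k => N378.KH.main1 N374.KH.t_COV N513.KH.t_MEAS N42.KH.t_MV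
        N186.KH.t_PIM N383.KH.t_LIN N2.KH.t_RANK N43.KH.t_DIST N727.KH.t_CMAP k D ν hD hL
  refine ⟨?_, ?_, hA, ?_⟩
  · simp only [numKSets_eq hk1 hk2]
    exact N378.KH.measurable_sep k hk1 hk2
  · intro D μ hD hp hμ
    have hL : N378.KH.Law2 D μ := ⟨hp, hμ⟩
    have hg := hinj D μ hD hL
    refine ⟨hg, ?_⟩
    have hC : 1 ≤ 2 ^ (m + 2) * D * n := by
      have h1 := one_le_dens (hμ i₀)
      have h2 : (2 : ℝ) ^ (m + 2) * D = 2 * (D * 2 ^ (m + 1)) := by ring
      rw [h2]
      nlinarith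
    exact bound hk1 hk2 _ (hg.mono fun x hx => hx.2) (2 ^ (m + 2) * D * n) hC
      fun k => N378.KH.main2 N374.KH.t_COV N513.KH.t_MEAS N42.KH.t_MV
        N2.KH.t_RANK N555.KH.t_CUR N931.KH.t_VOL N378.KH.t_DIS2 k D μ hD hL
  · intro s q hs hq
    have h := hA (1 / (2 * s)) (fun i j => unif s (q i j)) (by positivity)
      (fun i j => unif_prob hs (q i j)) (fun i j => unif_le hs (hq i j))
    rw [show 4 * (1 / (2 * s)) * (n : ℝ) = 2 * n / s by field_simp; ring] at h
    exact h

end Pool.Agent.Results.MP_77a832_co.SmoothedKSets
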